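import Pool.Agent.R34.DP.Stm

/-!
# Directed Poincare inequality on the cube (MP_04ae38_an), piece CUBE: from Gaussian space to the cube
-/

set_option autoImplicit false

open MeasureTheory ProbabilityTheory Set Filter
open scoped NNReal ENNReal Topology

namespace Pool.Agent.R906.DP

open R34.DP

/-- the Gaussian density -/
noncomputable def p (t : ℝ) : ℝ := gaussianPDFReal 0 1 t

lemma p_eq (t : ℝ) : p t = (Real.sqrt (2 * Real.pi))⁻¹ * Real.exp (-(t ^ 2) / 2) := by
  unfold p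
  rw [gaussianPDFReal_def]
  simp

lemma p_cont : Continuous p := by
  have : p = fun t => (Real.sqrt (2 * Real.pi))⁻¹ * Real.exp (-(t ^ 2) / 2) := funext p_eq
  rw [this]
  fun_prop

lemma p_pos (t : ℝ) : 0 < p t := gaussianPDFReal_pos 0 1 t one_ne_zero

lemma p_le (t : ℝ) : p t ≤ 1 := by
  rw [p_eq]
  have h1 : 1 ≤ Real.sqrt (2 * Real.pi) := by
    rw [Real.one_le_sqrt]
    have := Real.pi_gt_three
    linarith
  have h2 : (Real.sqrt (2 * Real.pi))⁻¹ ≤ 1 := inv_le_one_of_one_le₀ h1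
  have h3 : Real.exp (-(t ^ 2) / 2) ≤ 1 := by
    rw [Real.exp_le_one_iff]
    have := sq_nonneg t
    linarith
  have h4 : 0 ≤ (Real.sqrt (2 * Real.pi))⁻¹ := by positivity
  calc (Real.sqrt (2 * Real.pi))⁻¹ * Real.exp (-(t ^ 2) / 2) ≤ 1 * 1 :=
        mul_le_mul h2 h3 (Real.exp_pos _).le zero_le_one
    _ = 1 := one_mul 1

lemma p_int : Integrable p := integrable_gaussianPDFReal 0 1

/-- the Gaussian distribution function -/
noncomputable def Φ (z : ℝ) : ℝ := ∫ t in Iic z, p t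

lemma Φ_eq_cdf (z : ℝ) : Φ z = cdf g1 z := by
  rw [cdf_eq_real]
  unfold g1 Measure.real
  rw [gaussianReal_apply_eq_integral 0 one_ne_zero, ENNReal.toReal_ofReal]
  · rfl
  · exact integral_nonneg fun t => gaussianPDFReal_nonneg 0 1 t

lemma Φ_deriv (z : ℝ) : HasDerivAt Φ (p z) z := by
  have h1 : Φ = fun z => (∫ t in (0 : ℝ)..z, p t) + Φ 0 := by
    funext z
    have := intervalIntegral.integral_Iic_sub_Iic (μ := volume) (f := p) (a := 0) (b := z)
      p_int.integrableOn p_int.integrableOn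
    unfold Φ
    linarith
  rw [h1]
  apply HasDerivAt.add_const
  exact intervalIntegral.integral_hasDerivAt_right (p_cont.intervalIntegrable 0 z)
    (p_cont.stronglyMeasurableAtFilter _ _) p_cont.continuousAt

lemma Φ_cont : Continuous Φ := continuous_iff_continuousAt.2 fun z => (Φ_deriv z).continuousAt

lemma Φ_mono : StrictMono Φ := by
  apply strictMono_of_deriv_pos
  intro z
  rw [(Φ_deriv z).deriv]
  exact p_pos z

lemma Φ_lip (a b : ℝ) : |Φ a - Φ b| ≤ |a - b| := by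
  have h : LipschitzWith 1 Φ := by
    apply lipschitzWith_of_nnnorm_deriv_le (fun z => (Φ_deriv z).differentiableAt)
    intro z
    rw [(Φ_deriv z).deriv]
    have : ‖p z‖ ≤ 1 := by
      rw [Real.norm_eq_abs, abs_of_pos (p_pos z)]
      exact p_le z
    exact_mod_cast this
  have := h.dist_le_mul a b
  rw [Real.dist_eq, Real.dist_eq] at this
  simpa using this

lemma Φ_pos (z : ℝ) : 0 < Φ z := by
  have h1 : 0 ≤ Φ (z - 1) := by
    rw [Φ_eq_cdf]
    exact cdf_nonneg _ _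
  exact lt_of_le_of_lt h1 (Φ_mono (by linarith))

lemma Φ_lt (z : ℝ) : Φ z < 1 := by
  have h1 : Φ (z + 1) ≤ 1 := by
    rw [Φ_eq_cdf]
    exact cdf_le_one _ _
  exact lt_of_lt_of_le (Φ_mono (by linarith)) h1

lemma Φ_range : range Φ = Ioo 0 1 := by
  apply Subset.antisymm
  · rintro _ ⟨z, rfl⟩
    exact ⟨Φ_pos z, Φ_lt z⟩
  · rintro y ⟨h0, h1⟩
    apply mem_range_of_exists_le_of_exists_ge Φ_cont
    · have h2 := (tendsto_cdf_atBot g1).eventually (gt_mem_nhds h0)
      obtain ⟨a, ha⟩ := h2.exists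
      exact ⟨a, by rw [Φ_eq_cdf]; exact le_of_lt ha⟩
    · have h2 := (tendsto_cdf_atTop g1).eventually (lt_mem_nhds h1)
      obtain ⟨a, ha⟩ := h2.exists
      exact ⟨a, by rw [Φ_eq_cdf]; exact le_of_lt ha⟩

/-- the probability integral transform -/
lemma Φ_map : Measure.map Φ g1 = volume.restrict (Ioo 0 1) := by
  ext A hA
  rw [Measure.map_apply Φ_cont.measurable hA, Measure.restrict_apply hA]
  have hm : MeasurableSet (Φ ⁻¹' A) := Φ_cont.measurable hA
  have h1 := lintegral_image_eq_lintegral_abs_deriv_mul hm (fun x _ => (Φ_deriv x).hasDerivWithinAt)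
    (Φ_mono.injective.injOn) (fun _ => 1)
  rw [image_preimage_eq_inter_range, Φ_range] at h1
  simp only [mul_one, lintegral_const, one_mul, Measure.restrict_apply_univ] at h1
  rw [h1]
  unfold g1
  rw [gaussianReal_apply 0 one_ne_zero]
  apply lintegral_congr
  intro t
  rw [abs_of_pos (p_pos t)]
  rfl

variable {n : ℕ}

/-- coordinatewise transform -/
noncomputable def Ψ (z : Fin n → ℝ) : Fin n → ℝ := fun i => Φ (z i)

lemma Ψ_cont : Continuous (Ψ (n := n)) := continuous_pi fun i => Φ_cont.comp (continuous_apply i)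

lemma Ψ_inj : Function.Injective (Ψ (n := n)) := by
  intro a b hab
  funext i
  exact Φ_mono.injective (congrFun hab i)

/-- the open cube -/
def O (n : ℕ) : Set (Fin n → ℝ) := Set.univ.pi fun _ => Ioo 0 1

lemma O_open : IsOpen (O n) := isOpen_set_pi finite_univ fun _ _ => isOpen_Ioo

lemma Ψ_mem (z : Fin n → ℝ) : Ψ z ∈ O n := fun i _ => ⟨Φ_pos (z i), Φ_lt (z i)⟩

lemma O_sub : O n ⊆ Icc (0 : Fin n → ℝ) 1 := fun _ hx =>
  ⟨fun i => (hx i (mem_univ i)).1.le, fun i => (hx i (mem_univ i)).2.le⟩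

lemma Ψ_map : Measure.map (Ψ (n := n)) (gam n) = volume.restrict (O n) := by
  have hp : ∀ i : Fin n, IsProbabilityMeasure (Measure.map Φ g1) := fun _ =>
    Measure.isProbabilityMeasure_map Φ_cont.measurable.aemeasurable
  have h1 : Measure.map (fun (x : Fin n → ℝ) i => Φ (x i)) (Measure.pi fun _ : Fin n => g1) =
      Measure.pi fun _ : Fin n => Measure.map Φ g1 :=
    Measure.pi_map_pi (f := fun _ => Φ) (hμ := fun i => by have := hp i; infer_instance)
      (fun _ => Φ_cont.measurable.aemeasurable)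
  have h2 : Measure.map (Ψ (n := n)) (gam n) = Measure.pi fun _ : Fin n => Measure.map Φ g1 := h1
  rw [h2, Φ_map]
  unfold O
  rw [volume_pi, Measure.restrict_pi_pi]

lemma Icc_ae (h : (Fin n → ℝ) → ℝ) : ∫ x in Icc (0 : Fin n → ℝ) 1, h x = ∫ z, h (Ψ z) ∂(gam n) := by
  have hemb : MeasurableEmbedding (Ψ (n := n)) := Ψ_cont.measurableEmbedding Ψ_inj
  rw [← hemb.integral_map, Ψ_map]
  apply setIntegral_congr_set
  rw [volume_pi]
  exact (Measure.univ_pi_Ioo_ae_eq_Icc (f := (0 : Fin n → ℝ)) (g := 1)).symm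

lemma ngrad_meas (f : (Fin n → ℝ) → ℝ) : Measurable (ngrad f) := by
  unfold ngrad
  apply Measurable.sqrt
  apply Finset.measurable_sum
  intro i _
  exact ((measurable_fderiv_apply_const ℝ f (Pi.single i 1)).min measurable_const).pow_const 2

lemma ngrad_nonneg (f : (Fin n → ℝ) → ℝ) (x : Fin n → ℝ) : 0 ≤ ngrad f x := Real.sqrt_nonneg _

lemma ngrad_bd (f : (Fin n → ℝ) → ℝ) (K : ℝ≥0) (hf : LipschitzOnWith K f (Icc 0 1)) (x : Fin n → ℝ)
    (hx : x ∈ O n) : ngrad f x ≤ Real.sqrt (n * (K : ℝ) ^ 2) := by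
  have h1 : ‖fderiv ℝ f x‖ ≤ K :=
    norm_fderiv_le_of_lipschitzOn ℝ (mem_of_superset (O_open.mem_nhds hx) O_sub) hf
  unfold ngrad
  apply Real.sqrt_le_sqrt
  have h2 : ∀ i : Fin n, (min (fderiv ℝ f x (Pi.single i 1)) 0) ^ 2 ≤ (K : ℝ) ^ 2 := by
    intro i
    have h3 : |fderiv ℝ f x (Pi.single i 1)| ≤ K := by
      have h4 := (fderiv ℝ f x).le_opNorm (Pi.single i 1)
      have h5 : ‖(Pi.single i (1 : ℝ) : Fin n → ℝ)‖ = 1 := by
        rw [Pi.norm_single]
        simp
      rw [h5, mul_one] at h4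
      exact h4.trans h1
    rw [← sq_abs]
    apply pow_le_pow_left₀ (abs_nonneg _)
    rcases le_total (fderiv ℝ f x (Pi.single i 1)) 0 with h6 | h6
    · rw [min_eq_left h6]
      exact h3
    · rw [min_eq_right h6, abs_zero]
      exact K.2
  calc ∑ i, (min (fderiv ℝ f x (Pi.single i 1)) 0) ^ 2 ≤ ∑ _i : Fin n, (K : ℝ) ^ 2 :=
        Finset.sum_le_sum fun i _ => h2 i
    _ = n * (K : ℝ) ^ 2 := by simp

/-- chain rule -/
lemma ngrad_comp (f : (Fin n → ℝ) → ℝ) (z : Fin n → ℝ) (hf : DifferentiableAt ℝ f (Ψ z)) :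
    ngrad (fun z => f (Ψ z)) z ≤ ngrad f (Ψ z) := by
  have hΨ : HasFDerivAt (Ψ (n := n)) (ContinuousLinearMap.pi fun i =>
      (p (z i)) • (ContinuousLinearMap.proj i : (Fin n → ℝ) →L[ℝ] ℝ)) z := by
    rw [hasFDerivAt_pi]
    intro i
    have h1 : HasFDerivAt (fun x : Fin n → ℝ => x i) (ContinuousLinearMap.proj i : (Fin n → ℝ) →L[ℝ] ℝ) z :=
      (ContinuousLinearMap.proj i : (Fin n → ℝ) →L[ℝ] ℝ).hasFDerivAt
    exact (Φ_deriv (z i)).comp_hasFDerivAt z h1
  have hc := (hf.hasFDerivAt.comp z hΨ).fderiv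
  have he : ∀ i, fderiv ℝ (fun z => f (Ψ z)) z (Pi.single i 1) = p (z i) * fderiv ℝ f (Ψ z) (Pi.single i 1) := by
    intro i
    have h1 : fderiv ℝ (fun z => f (Ψ z)) z = (fderiv ℝ f (Ψ z)).comp (ContinuousLinearMap.pi fun i =>
      (p (z i)) • (ContinuousLinearMap.proj i : (Fin n → ℝ) →L[ℝ] ℝ)) := hc
    rw [h1, ContinuousLinearMap.comp_apply]
    have h2 : (ContinuousLinearMap.pi fun i =>
      (p (z i)) • (ContinuousLinearMap.proj i : (Fin n → ℝ) →L[ℝ] ℝ)) (Pi.single i 1) = p (z i) • (Pi.single i (1 : ℝ) : Fin n → ℝ) := by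
      funext j
      by_cases hj : j = i
      · subst hj
        simp
      · simp [hj]
    rw [h2, map_smul, smul_eq_mul]
  unfold ngrad
  apply Real.sqrt_le_sqrt
  apply Finset.sum_le_sum
  intro i _
  rw [he i]
  have hp := p_pos (z i)
  have hp1 := p_le (z i)
  set a := fderiv ℝ f (Ψ z) (Pi.single i 1) with ha
  rcases le_total a 0 with h6 | h6
  · rw [min_eq_left h6, min_eq_left (mul_nonpos_of_nonneg_of_nonpos hp.le h6), mul_pow]
    have : p (z i) ^ 2 ≤ 1 := pow_le_one₀ hp.le hp1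
    have h7 := sq_nonneg a
    nlinarith
  · rw [min_eq_right h6, min_eq_right (mul_nonneg hp.le h6)]

/-- extension of a monotone function from the open cube -/
lemma ext_mono (G : (Fin n → ℝ) → ℝ) (hG : Adm G) (hm : Monotone G) :
    ∃ g : (Fin n → ℝ) → ℝ, Measurable g ∧ Monotone g ∧ ∀ z, g (Ψ z) = G z := by
  classical
  obtain ⟨⟨K, hK⟩, B, hB⟩ := hG
  obtain ⟨F, hF⟩ : ∃ F : (Fin n → ℚ) → (Fin n → ℝ) → ℝ, ∀ q x, F q x =
      if ∀ i, Φ (q i) ≤ x i then G (fun i => (q i : ℝ)) else -B := ⟨fun q x => _, fun _ _ => rfl⟩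
  have hFB : ∀ q x, F q x ≤ B := by
    intro q x
    rw [hF]
    split_ifs
    · exact (abs_le.1 (hB _)).2
    · have := (abs_nonneg _).trans (hB 0)
      linarith
  have hbdd : ∀ x, BddAbove (range fun q => F q x) := by
    intro x
    refine ⟨B, ?_⟩
    rintro _ ⟨q, rfl⟩
    exact hFB q x
  refine ⟨fun x => ⨆ q, F q x, ?_, ?_, ?_⟩
  · apply Measurable.iSup
    intro q
    have : F q = fun x => if ∀ i, Φ (q i) ≤ x i then G (fun i => (q i : ℝ)) else -B := funext (hF q)
    rw [this]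
    apply Measurable.ite _ measurable_const measurable_const
    have h1 : {x : Fin n → ℝ | ∀ i, Φ (q i) ≤ x i} = ⋂ i, {x : Fin n → ℝ | Φ (q i) ≤ x i} := by
      ext x
      simp
    show MeasurableSet {x : Fin n → ℝ | ∀ i, Φ (q i) ≤ x i}
    rw [h1]
    exact MeasurableSet.iInter fun i => measurableSet_le measurable_const (measurable_pi_apply i)
  · intro x y hxy
    apply ciSup_mono (hbdd y)
    intro q
    show F q x ≤ F q y
    rw [hF, hF]
    by_cases h : ∀ i, Φ (q i) ≤ x i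
    · rw [if_pos h, if_pos (fun i => (h i).trans (hxy i))]
    · rw [if_neg h]
      split_ifs
      · exact (abs_le.1 (hB _)).1
      · exact le_rfl
  · intro z
    apply le_antisymm
    · apply ciSup_le
      intro q
      rw [hF]
      split_ifs with h
      · apply hm
        intro i
        exact Φ_mono.le_iff_le.1 (h i)
      · exact (abs_le.1 (hB _)).1
    · apply le_of_forall_pos_le_add
      intro ε hε
      obtain ⟨δ, hδ⟩ : ∃ δ : ℝ, δ = ε / (K + 1) := ⟨_, rfl⟩
      have hK0 : (0 : ℝ) ≤ K := K.2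
      have hδ0 : 0 < δ := by rw [hδ]; positivity
      have h1 : ∀ i, ∃ q : ℚ, z i - δ < q ∧ (q : ℝ) < z i := fun i => exists_rat_btwn (by linarith)
      choose q hq1 hq2 using h1
      have h2 : F q (Ψ z) = G (fun i => (q i : ℝ)) := by
        rw [hF, if_pos]
        intro i
        exact Φ_mono.monotone (hq2 i).le
      have h3 : F q (Ψ z) ≤ ⨆ q, F q (Ψ z) := le_ciSup (hbdd (Ψ z)) q
      have h4 : |G z - G (fun i => (q i : ℝ))| ≤ K * δ := by
        have h5 := hK.dist_le_mul z (fun i => (q i : ℝ))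
        rw [Real.dist_eq] at h5
        refine h5.trans (mul_le_mul_of_nonneg_left ?_ hK0)
        rw [dist_pi_le_iff hδ0.le]
        intro i
        rw [Real.dist_eq, abs_le]
        constructor <;> [have := hq2 i; have := hq1 i] <;> linarith
      have h6 : K * δ ≤ ε := by
        rw [hδ, mul_div_assoc', div_le_iff₀ (by positivity)]
        nlinarith
      have h7 := (abs_le.1 h4).2
      rw [h2] at h3
      show G z ≤ (⨆ q, F q (Ψ z)) + ε
      linarith

theorem t_CUBE : S_CUBE := by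
  rintro ⟨α, hα, hg⟩
  refine ⟨α, hα, fun n f K hf => ?_⟩
  -- the transformed function
  have hFl : LipschitzWith K (fun z : Fin n → ℝ => f (Ψ z)) := by
    apply LipschitzWith.of_dist_le_mul
    intro a b
    have h1 := hf.dist_le_mul (Ψ a) (O_sub (Ψ_mem a)) (Ψ b) (O_sub (Ψ_mem b))
    refine h1.trans (mul_le_mul_of_nonneg_left ?_ K.2)
    rw [dist_pi_le_iff dist_nonneg]
    intro i
    rw [Real.dist_eq]
    refine (Φ_lip (a i) (b i)).trans ?_
    rw [← Real.dist_eq]
    exact dist_le_pi_dist a b i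
  have hFb : ∀ z : Fin n → ℝ, |f (Ψ z)| ≤ |f (Ψ 0)| + K := by
    intro z
    have h1 := hf.dist_le_mul (Ψ z) (O_sub (Ψ_mem z)) (Ψ 0) (O_sub (Ψ_mem 0))
    rw [Real.dist_eq] at h1
    have h2 : dist (Ψ z) (Ψ 0) ≤ 1 := by
      rw [dist_pi_le_iff zero_le_one]
      intro i
      have h3 := Φ_pos (z i)
      have h4 := Φ_lt (z i)
      have h5 := Φ_pos ((0 : Fin n → ℝ) i)
      have h6 := Φ_lt ((0 : Fin n → ℝ) i)
      show |Φ (z i) - Φ ((0 : Fin n → ℝ) i)| ≤ 1
      rw [abs_le]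
      constructor <;> linarith
    have h7 : (K : ℝ) * dist (Ψ z) (Ψ 0) ≤ K := mul_le_of_le_one_right K.2 h2
    have h8 : |f (Ψ z)| ≤ |f (Ψ z) - f (Ψ 0)| + |f (Ψ 0)| := by
      have := abs_add_le (f (Ψ z) - f (Ψ 0)) (f (Ψ 0))
      rwa [sub_add_cancel] at this
    linarith
  obtain ⟨G, hG, hGm, hGi⟩ := hg n (fun z => f (Ψ z)) ⟨⟨K, hFl⟩, _, hFb⟩
  obtain ⟨g, hgm, hgmon, hgG⟩ := ext_mono G hG hGm
  refine ⟨g, hgm, hgmon.monotoneOn _, ?_⟩
  rw [Icc_ae, Icc_ae]
  simp only [hgG]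
  refine hGi.trans (mul_le_mul_of_nonneg_left ?_ hα.le)
  -- comparison of the gradients
  have hdiff : ∀ᵐ z ∂(gam n), DifferentiableAt ℝ f (Ψ z) := by
    have h1 : ∀ᵐ x ∂(volume.restrict (O n)), DifferentiableAt ℝ f x := by
      have h2 := (hf.mono O_sub).ae_differentiableWithinAt (μ := volume) (O_open (n := n)).measurableSet
      have h3 : ∀ᵐ x ∂(volume.restrict (O n)), x ∈ O n := ae_restrict_mem O_open.measurableSet
      filter_upwards [h2, h3] with x hx1 hx2
      exact hx1.differentiableAt (O_open.mem_nhds hx2)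
    rw [← Ψ_map] at h1
    exact ae_of_ae_map Ψ_cont.measurable.aemeasurable h1
  apply integral_mono_of_nonneg (Eventually.of_forall fun z => ngrad_nonneg _ z)
  · apply Integrable.of_bound ((ngrad_meas f).comp Ψ_cont.measurable).aestronglyMeasurable (Real.sqrt (n * (K : ℝ) ^ 2))
    refine Eventually.of_forall fun z => ?_
    show ‖ngrad f (Ψ z)‖ ≤ _
    rw [Real.norm_eq_abs, abs_of_nonneg (ngrad_nonneg _ _)]
    exact ngrad_bd f K hf (Ψ z) (Ψ_mem z)
  · filter_upwards [hdiff] with z hz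
    exact ngrad_comp f z hz

end Pool.Agent.R906.DP
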